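import Pool.Agent.R498.MP.PU9
import Pool.Agent.R498.MP.LinC

set_option autoImplicit false

/-!
# Strings of consecutive primes `n` with almost prime `a_i n + 1`, uniformly in the `a_i`

For all `s`, `m` and squarefree `q` there are `K`, `B` and `δ > 0`, and for every `A` an `r`, such that for every set
`S` of at least `K` nonnegative integers and all large `N` the following holds for EVERY admissible set
`{a_1, ..., a_s}` with all `a_i ≤ N ^ A` and every class `c` modulo `q` for which `c ∏ (a_i c + 1)` is prime to `q`: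
there are a subset `H` of `S` with at least `m` elements and at least `N / (log N) ^ B` integers `n` in `(N, 2 N]`
such that the primes in `[n, n + max S]` are exactly the numbers `n + h`, `h ∈ H`, all these primes `p` are `≡ c`
modulo `q`, and all the numbers `a_1 p + 1`, ..., `a_s p + 1` have at most `r` prime factors, all of them at least
`N ^ δ`.

The proof specialises `Pool.Agent.R498.MP.stringsUR` of the starting library.
-/

namespace Pool.Agent.Results.MP_bca3e5_nt.UniformStrings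

open Filter Finset

/-- The `a i` are distinct positive integers, and no prime divides `n ∏ (a i n + 1)` for all `n ≥ 1`. -/
def Admissible {s : ℕ} (a : Fin s → ℕ) : Prop :=
  (∀ i, 1 ≤ a i) ∧ Function.Injective a ∧
    ∀ p : ℕ, p.Prime → ∃ n : ℕ, 1 ≤ n ∧ ¬ p ∣ n * ∏ i, (a i * n + 1)

/-- `n` has at most `r` prime factors, counted with multiplicity, all of them at least `w`. -/
def AlmostPrime (r : ℕ) (w : ℝ) (n : ℕ) : Prop :=
  n.primeFactorsList.length ≤ r ∧ ∀ l : ℕ, l.Prime → l ∣ n → w ≤ l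

/-- The primes in the interval `[x, x + C]` are exactly the numbers `x + h`, `h ∈ H`. -/
def PrimePattern (C : ℕ) (H : Finset ℕ) (x : ℕ) : Prop := ∀ y ≤ C, (x + y).Prime ↔ y ∈ H

/-- the product of the linear forms -/
noncomputable def pol {s : ℕ} (a : Fin s → ℕ) : Polynomial ℤ :=
  ∏ i, (Polynomial.C (a i : ℤ) * Polynomial.X + 1)

theorem pol_eval {s : ℕ} (a : Fin s → ℕ) (x : ℤ) : (pol a).eval x = ∏ i, ((a i : ℤ) * x + 1) := by
  unfold pol
  rw [Polynomial.eval_prod]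
  exact prod_congr rfl fun i _ => by simp

theorem pol_nat {s : ℕ} (a : Fin s → ℕ) (n : ℕ) : (n : ℤ) * (pol a).eval (n : ℤ) =
    ((n * ∏ i, (a i * n + 1) : ℕ) : ℤ) := by
  rw [pol_eval]
  push_cast
  rfl

theorem pol_deg {s : ℕ} (a : Fin s → ℕ) : (pol a).natDegree ≤ s := by
  unfold pol
  refine (Polynomial.natDegree_prod_le _ _).trans ?_
  refine (sum_le_sum (g := fun _ => 1) fun i _ => ?_).trans (by simp)
  have h : (Polynomial.C (a i : ℤ) * Polynomial.X + 1 : Polynomial ℤ) =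
      Polynomial.C (a i : ℤ) * Polynomial.X + Polynomial.C 1 := by simp
  rw [h]
  exact Polynomial.natDegree_linear_le

theorem two_le {s : ℕ} (a : Fin s → ℕ) (ha : Admissible a) (i : Fin s) : 2 ≤ a i := by
  obtain ⟨h1, -, h2⟩ := ha
  obtain ⟨n, -, hn⟩ := h2 2 Nat.prime_two
  by_contra hcon
  have h3 : a i = 1 := by
    have := h1 i
    omega
  apply hn
  rcases Nat.even_or_odd n with h | h
  · exact (even_iff_two_dvd.1 h).mul_right _
  · refine Dvd.dvd.mul_left ?_ _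
    refine dvd_trans ?_ (dvd_prod_of_mem (fun i => a i * n + 1) (mem_univ i))
    rw [h3, one_mul]
    exact even_iff_two_dvd.1 h.add_one

theorem bound {s : ℕ} (a : Fin s → ℕ) (N A : ℕ) (hN : 4 ≤ N) (ha : ∀ i, a i ≤ N ^ A) (x : ℤ)
    (hx : |x| ≤ 2 * N) : |(pol a).eval x| ≤ (N : ℤ) ^ ((A + 2) * s) := by
  rw [pol_eval, abs_prod, pow_mul]
  have h : ∀ i ∈ (univ : Finset (Fin s)), |(a i : ℤ) * x + 1| ≤ (N : ℤ) ^ (A + 2) := by
    intro i _
    have h1 : (a i : ℤ) ≤ (N : ℤ) ^ A := by exact_mod_cast ha i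
    have h2 : (1 : ℤ) ≤ (N : ℤ) ^ A := one_le_pow₀ (by omega)
    have h3 : |(a i : ℤ) * x| ≤ (N : ℤ) ^ A * (2 * N) := by
      rw [abs_mul, abs_of_nonneg (Int.natCast_nonneg _)]
      exact mul_le_mul h1 hx (abs_nonneg _) (by positivity)
    have hN' : (4 : ℤ) ≤ N := by exact_mod_cast hN
    calc |(a i : ℤ) * x + 1| ≤ |(a i : ℤ) * x| + |(1 : ℤ)| := abs_add_le _ _
      _ ≤ (N : ℤ) ^ A * (2 * N) + 1 := by
          rw [abs_one]
          linarith
      _ ≤ (N : ℤ) ^ A * (2 * N) + (N : ℤ) ^ A := by linarith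
      _ = (N : ℤ) ^ A * (2 * N + 1) := by ring
      _ ≤ (N : ℤ) ^ A * (N * N) := by
          apply mul_le_mul_of_nonneg_left _ (by positivity)
          nlinarith
      _ = (N : ℤ) ^ (A + 2) := by ring
  calc ∏ i, |(a i : ℤ) * x + 1| ≤ ∏ _i : Fin s, (N : ℤ) ^ (A + 2) :=
        prod_le_prod (fun i _ => abs_nonneg _) h
    _ = ((N : ℤ) ^ (A + 2)) ^ s := by simp

/-- **Strings of consecutive primes `n` with almost prime `a_i n + 1`, uniformly in the `a_i`.** -/
theorem result (s q : ℕ) (hq : Squarefree q) (m : ℕ) :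
    ∃ (K B : ℕ) (δ : ℝ), 0 < δ ∧ ∀ A : ℕ, ∃ r : ℕ, ∀ S : Finset ℕ, K ≤ S.card →
      ∀ᶠ N : ℕ in atTop, ∀ a : Fin s → ℕ, Admissible a → (∀ i, a i ≤ N ^ A) →
      ∀ c : ℕ, Nat.Coprime (c * ∏ i, (a i * c + 1)) q →
      ∃ H ⊆ S, m ≤ H.card ∧ ∃ T : Finset ℕ, (N : ℝ) ≤ Real.log N ^ B * T.card ∧
        ∀ n ∈ T, N < n ∧ n + S.sup id ≤ 2 * N ∧ PrimePattern (S.sup id) H n ∧
          ∀ h ∈ H, n + h ≡ c [MOD q] ∧ ∀ i, AlmostPrime r ((N : ℝ) ^ δ) (a i * (n + h) + 1) := by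
  obtain ⟨K, B, δ, hδ, hmain⟩ := Pool.Agent.R498.MP.stringsUR s q hq m
  refine ⟨K, B, δ, hδ, fun A => ?_⟩
  obtain ⟨r, hr⟩ := hmain ((A + 2) * s)
  refine ⟨r, fun S hS => ?_⟩
  filter_upwards [hr S hS, eventually_ge_atTop 4] with N hN hN4
  intro a ha haN c hc
  obtain ⟨H, hH, hHm, T, hT, hmem⟩ := hN (pol a) (pol_deg a) (fun p hp => by
      obtain ⟨n, -, hn⟩ := ha.2.2 p hp
      refine ⟨n, fun h => hn ?_⟩
      rw [pol_nat] at h
      exact_mod_cast h)
    (fun x hx => bound a N A hN4 haN x hx)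
    (fun x _ _ => by
      rw [pol_eval, prod_ne_zero_iff]
      intro i _ h0
      have h2 := two_le a ha i
      have h3 : (a i : ℤ) ∣ 1 := ⟨-x, by linarith⟩
      have h4 := Int.le_of_dvd one_pos h3
      omega) c (fun p hp hpq h => by
      rw [pol_nat] at h
      have h1 : p ∣ c * ∏ i, (a i * c + 1) := by exact_mod_cast h
      exact hp.one_lt.ne' (Nat.dvd_one.1 (hc ▸ Nat.dvd_gcd h1 hpq)))
  refine ⟨H, hH, hHm, T, hT, fun n hn => ?_⟩
  obtain ⟨h1, h2, h3, h4⟩ := hmem n hn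
  refine ⟨h1, h2, h3, fun h hh => ?_⟩
  obtain ⟨h5, h6⟩ := h4 h hh
  refine ⟨h5, fun i => ?_⟩
  have h7 : Pool.Agent.R498.MP.AP r ((N : ℝ) ^ δ) ((a i : ℤ) * ((n + h : ℕ) : ℤ) + 1) := by
    refine Pool.Agent.R498.MP.AP_dvd r _ _ ((pol a).eval ((n + h : ℕ) : ℤ)) h6 ?_
    rw [pol_eval]
    exact dvd_prod_of_mem (fun i => (a i : ℤ) * ((n + h : ℕ) : ℤ) + 1) (mem_univ i)
  have e : (a i : ℤ) * ((n + h : ℕ) : ℤ) + 1 = ((a i * (n + h) + 1 : ℕ) : ℤ) := by push_cast; ring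
  rw [e] at h7
  obtain ⟨-, h8, h9⟩ := h7
  rw [Int.natAbs_natCast] at h8
  exact ⟨h8, fun l hl hd => h9 l hl (by exact_mod_cast hd)⟩

end Pool.Agent.Results.MP_bca3e5_nt.UniformStrings
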